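import Pool.Agent.R109.ERW.Final

set_option autoImplicit false

namespace Pool.Agent.Results.MP_3aae7f_pr.NonCriticalStrong

open MeasureTheory R109.ERW

/-- Every non-critical excited random walk with Markovian cookie stacks is strongly transient
(Q2); moreover `P(X n = 0)` decays exponentially. -/
theorem result.{u} {N : ℕ} (K : Fin N → Fin N → ℝ) (p η μ : Fin N → ℝ)
    (hK : IsStochastic K)
    (hclass : ∃! C : Set (Fin N), IsClosedIrreducibleClass K C)
    (hμ : IsStationary K μ)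
    (hp : ∀ r, 0 < p r ∧ p r < 1)
    (hη : IsProbVec η)
    (hnoncritical : ∑ r, μ r * p r ≠ 1 / 2)
    {Ω : Type u} [MeasurableSpace Ω] (P : Measure Ω) [IsProbabilityMeasure P]
    (R : ℤ → ℕ → Ω → Fin N) (X : ℕ → Ω → ℤ) (hX : IsERW K p η P R X) :
    IsStronglyTransient P X ∧
      ∃ lam : ℝ, 1 < lam ∧ ∃ C : ℝ, ∀ n, lam ^ n * P.real {ω | X n ω = 0} ≤ C :=
  ⟨main hK hclass hμ hp hη hnoncritical hX, decay hK hclass hμ hp hη hnoncritical hX⟩

end Pool.Agent.Results.MP_3aae7f_pr.NonCriticalStrong
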